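import Pool.Agent.LE.StmtsH
import Pool.Agent.Helper47_Mob.Exp

/-!
# Squad LCH, row FVW: the spectral decomposition of a vector in a cube
-/

set_option autoImplicit false

open MeasureTheory ProbabilityTheory Function Filter

open scoped ENNReal BigOperators InnerProductSpace Topology

noncomputable section

namespace Pool.Agent.LE.CH.H60

open Pool.Agent.Anderson Pool.Agent.Loc Pool.Agent.Mob Pool.Agent.Helper54.Bal

variable {d : ℕ}

/-- Parseval, for a real orthonormal system and a complex vector. -/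
theorem parseval {m : Type*} [Fintype m] [DecidableEq m] (F : m → m → ℝ)
    (h : ∀ x y, ∑ j, F j x * F j y = if x = y then 1 else 0) (w : m → ℂ) :
    ∑ j, ‖∑ x, (F j x : ℂ) * w x‖ ^ 2 = ∑ x, ‖w x‖ ^ 2 := by
  have h1 : ((∑ j, ‖∑ x, (F j x : ℂ) * w x‖ ^ 2 : ℝ) : ℂ) = ((∑ x, ‖w x‖ ^ 2 : ℝ) : ℂ) := by
    push_cast
    have h2 : ∀ j, ((‖∑ x, (F j x : ℂ) * w x‖ : ℝ) : ℂ) ^ 2 =
        ∑ x, ∑ y, ((F j x * F j y : ℝ) : ℂ) * (starRingEnd ℂ (w x) * w y) := by
      intro j
      rw [← Complex.conj_mul', map_sum, Finset.sum_mul_sum]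
      apply Finset.sum_congr rfl
      intro x _
      apply Finset.sum_congr rfl
      intro y _
      rw [map_mul, Complex.conj_ofReal]
      push_cast
      ring
    rw [Finset.sum_congr rfl fun j _ => h2 j, Finset.sum_comm]
    apply Finset.sum_congr rfl
    intro x _
    rw [Finset.sum_comm]
    have h3 : ∀ y, ∑ j, ((F j x * F j y : ℝ) : ℂ) * (starRingEnd ℂ (w x) * w y) =
        if x = y then starRingEnd ℂ (w x) * w y else 0 := by
      intro y
      rw [← Finset.sum_mul, ← Complex.ofReal_sum, h x y]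
      split_ifs <;> simp
    rw [Finset.sum_congr rfl fun y _ => h3 y, Finset.sum_ite_eq, if_pos (Finset.mem_univ _),
      Complex.conj_mul']
  exact_mod_cast h1

theorem ortho {m : Type*} [Fintype m] [DecidableEq m]
    (b : OrthonormalBasis m ℝ (EuclideanSpace ℝ m)) (j k : m) :
    ∑ x, b j x * b k x = if j = k then 1 else 0 := by
  have h := (orthonormal_iff_ite.1 b.orthonormal) j k
  rw [← h, PiLp.inner_apply]
  apply Finset.sum_congr rfl
  intro x _
  simp [mul_comm]

/-- eigenvectors of `H_Λ` -/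
theorem basis (V : Site d → ℝ) (Λ : Finset (Site d)) :
    ∃ (lam : Λ → ℝ) (F : Λ → Λ → ℝ),
      (∀ x y, ∑ j, F j x * F j y = if x = y then 1 else 0) ∧
      (∀ j k, ∑ x, F j x * F k x = if j = k then 1 else 0) ∧
      ∀ j x, ∑ y, HM V Λ x y * F j y = lam j * F j x := by
  classical
  refine ⟨(H47.hm_herm V Λ).eigenvalues, fun j x => (H47.hm_herm V Λ).eigenvectorBasis j x,
    H47.complete _, ortho _, ?_⟩
  intro j x
  have h1 := congrFun ((H47.hm_herm V Λ).mulVec_eigenvectorBasis j) x
  simp only [Matrix.mulVec, dotProduct] at h1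
  rw [h1]
  simp

theorem HM_comm (V : Site d → ℝ) (Λ : Finset (Site d)) (x y : Λ) : HM V Λ x y = HM V Λ y x := by
  have h := congrFun (congrFun (HM_symm V Λ) y) x
  rw [Matrix.transpose_apply] at h
  exact h

/-- the resolvent -/
theorem gz_eq (V : Site d → ℝ) (Λ : Finset (Site d)) (lam : Λ → ℝ) (F : Λ → Λ → ℝ)
    (hrow : ∀ x y, ∑ j, F j x * F j y = if x = y then 1 else 0)
    (heig : ∀ j x, ∑ y, HM V Λ x y * F j y = lam j * F j x)
    (z : ℂ) (hz : ∀ j, z ≠ lam j) (x y : Λ) :
    gz V Λ z x y = ∑ j, ((F j x : ℂ) * (F j y : ℂ)) / (z - lam j) := by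
  unfold gz
  rw [dif_pos ⟨x.2, y.2⟩]
  set N : Matrix Λ Λ ℂ := Matrix.of fun u w => ∑ j, ((F j u : ℂ) * (F j w : ℂ)) / (z - lam j)
    with hN
  have hmul : (z • (1 : Matrix Λ Λ ℂ) - HC V Λ) * N = 1 := by
    ext u w
    rw [Matrix.mul_apply]
    have h1 : ∀ v : Λ, (z • (1 : Matrix Λ Λ ℂ) - HC V Λ) u v * N v w =
        ∑ j, ((z • (1 : Matrix Λ Λ ℂ) - HC V Λ) u v * (F j v : ℂ)) *
          ((F j w : ℂ) / (z - lam j)) := by
      intro v
      rw [hN, Matrix.of_apply, Finset.mul_sum]
      apply Finset.sum_congr rfl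
      intro j _
      ring
    rw [Finset.sum_congr rfl fun v _ => h1 v, Finset.sum_comm]
    have h2 : ∀ j, ∑ v, (z • (1 : Matrix Λ Λ ℂ) - HC V Λ) u v * (F j v : ℂ) *
        ((F j w : ℂ) / (z - lam j)) = ((F j u * F j w : ℝ) : ℂ) := by
      intro j
      rw [← Finset.sum_mul]
      have h3 : ∑ v, (z • (1 : Matrix Λ Λ ℂ) - HC V Λ) u v * (F j v : ℂ) =
          (z - lam j) * (F j u : ℂ) := by
        have h4 := congrArg (fun t : ℝ => (t : ℂ)) (heig j u)
        push_cast at h4
        have h5 : ∀ v : Λ, (z • (1 : Matrix Λ Λ ℂ) - HC V Λ) u v * (F j v : ℂ) =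
            (if u = v then z * (F j u : ℂ) else 0) - (HM V Λ u v : ℂ) * (F j v : ℂ) := by
          intro v
          rw [Matrix.sub_apply, Matrix.smul_apply, Matrix.one_apply, smul_eq_mul]
          unfold HC
          rw [Matrix.map_apply]
          by_cases h : u = v
          · subst h; simp; ring
          · simp [h]
        rw [Finset.sum_congr rfl fun v _ => h5 v, Finset.sum_sub_distrib, h4]
        simp
        ring
      rw [h3]
      have h6 : z - (lam j : ℂ) ≠ 0 := sub_ne_zero.2 (hz j)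
      push_cast
      field_simp
    rw [Finset.sum_congr rfl fun j _ => h2 j, ← Complex.ofReal_sum, hrow u w,
      Matrix.one_apply]
    split_ifs <;> simp
  rw [Matrix.inv_eq_right_inv hmul, hN, Matrix.of_apply]

theorem fvw : FvwStmt := by
  intro d n V u
  set Λ : Finset (Site d) := box (0 : Site d) n with hΛ
  obtain ⟨lam, F, hrow, hcol, heig⟩ := basis V Λ
  set c : Λ → ℂ := fun j => ∑ x : Λ, (F j x : ℂ) * u x with hc
  refine ⟨fun j => ‖c j‖ ^ 2, lam, fun j => by positivity, ?_, ?_, ?_⟩
  · have h1 := parseval F hrow (fun x : Λ => u x)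
    rw [← Finset.sum_coe_sort Λ (fun x => ‖u x‖ ^ 2)]
    exact h1
  · intro z hz
    have hzl : ∀ j, z ≠ lam j := by
      intro j h
      apply hz
      rw [h]
      exact Complex.ofReal_im _
    have h1 : ∀ x : Λ, fv V n z u x = ∑ j, (F j x : ℂ) * (c j / (z - lam j)) := by
      intro x
      unfold fv
      rw [← hΛ, ← Finset.sum_coe_sort Λ (fun y => gz V Λ z x y * u y)]
      have h2 : ∀ y : Λ, gz V Λ z x y * u y =
          ∑ j, (F j x : ℂ) * ((F j y : ℂ) * u y / (z - lam j)) := by
        intro y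
        rw [gz_eq V Λ lam F hrow heig z hzl x y, Finset.sum_mul]
        apply Finset.sum_congr rfl
        intro j _
        ring
      rw [Finset.sum_congr rfl fun y _ => h2 y, Finset.sum_comm]
      apply Finset.sum_congr rfl
      intro j _
      rw [← Finset.mul_sum, ← Finset.sum_div]
    rw [← Finset.sum_coe_sort Λ (fun x => ‖fv V n z u x‖ ^ 2)]
    rw [Finset.sum_congr rfl fun (x : Λ) _ => by rw [h1 x]]
    have h2 := parseval (fun x j => F j x) hcol (fun j => c j / (z - lam j))
    rw [h2]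
    apply Finset.sum_congr rfl
    intro j _
    rw [norm_div, div_pow]
  · intro a
    have h1 : ∀ x : Λ, lap (cut n u) x + (V x : ℂ) * u x = ∑ y : Λ, (HM V Λ x y : ℂ) * u y := by
      intro x
      rw [lap_eq_sum _ (x : Site d) (box (x : Site d) 1 ∪ Λ) Finset.subset_union_left,
        ← Finset.sum_subset (Finset.subset_union_right (s₁ := box (x : Site d) 1) (s₂ := Λ))]
      · rw [← Finset.sum_coe_sort Λ (fun y => (hop x y : ℂ) * cut n u y)]
        have h3 : ∀ y : Λ, (HM V Λ x y : ℂ) * u y = (hop (x : Site d) y : ℂ) * cut n u y +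
            if x = y then (V x : ℂ) * u x else 0 := by
          intro y
          have h4 : cut n u y = u y := by
            unfold cut
            rw [← hΛ, if_pos y.2]
          rw [h4]
          simp only [HM, Matrix.of_apply]
          by_cases h : x = y
          · subst h; simp; ring
          · simp [h]
        rw [Finset.sum_congr rfl fun y _ => h3 y, Finset.sum_add_distrib]
        simp
      · intro y _ hy
        unfold cut
        rw [← hΛ, if_neg hy, mul_zero]
    rw [← Finset.sum_coe_sort Λ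
      (fun x => ‖lap (cut n u) x + (V x : ℂ) * u x - (a : ℂ) * u x‖ ^ 2)]
    have h2 := parseval F hrow (fun x : Λ => lap (cut n u) x + (V x : ℂ) * u x - (a : ℂ) * u x)
    rw [← h2]
    apply Finset.sum_congr rfl
    intro j _
    have h3 : ∑ x : Λ, (F j x : ℂ) * (lap (cut n u) x + (V x : ℂ) * u x - (a : ℂ) * u x) =
        ((lam j - a : ℝ) : ℂ) * c j := by
      have h4 : ∑ x : Λ, (F j x : ℂ) * (∑ y : Λ, (HM V Λ x y : ℂ) * u y) = (lam j : ℂ) * c j := by
        simp only [Finset.mul_sum]
        rw [Finset.sum_comm]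
        simp only [hc, Finset.mul_sum]
        apply Finset.sum_congr rfl
        intro y _
        have h5 := congrArg (fun t : ℝ => (t : ℂ)) (heig j y)
        push_cast at h5
        have h6 : ∀ x : Λ, (F j x : ℂ) * ((HM V Λ x y : ℂ) * u y) =
            ((HM V Λ y x : ℂ) * (F j x : ℂ)) * u y := by
          intro x
          rw [HM_comm V Λ x y]
          ring
        rw [Finset.sum_congr rfl fun x _ => h6 x, ← Finset.sum_mul, h5]
        ring
      have h5 : ∀ x : Λ, (F j x : ℂ) * (lap (cut n u) x + (V x : ℂ) * u x - (a : ℂ) * u x) =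
          (F j x : ℂ) * (∑ y : Λ, (HM V Λ x y : ℂ) * u y) - (a : ℂ) * ((F j x : ℂ) * u x) := by
        intro x
        rw [h1 x]
        ring
      rw [Finset.sum_congr rfl fun x _ => h5 x, Finset.sum_sub_distrib, h4, ← Finset.mul_sum]
      push_cast
      simp only [hc]
      ring
    rw [h3, norm_mul, mul_pow, Complex.norm_real, Real.norm_eq_abs, sq_abs]
    ring

end Pool.Agent.LE.CH.H60
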