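import Pool.Agent.LE.StmtsH

/-!
# Squad LCH, row PTI: a pointwise inequality for the Poisson kernel
-/

set_option autoImplicit false

open MeasureTheory ProbabilityTheory Function Filter

open scoped ENNReal BigOperators InnerProductSpace Topology

noncomputable section

namespace Pool.Agent.LE.CH.H60

open Pool.Agent.Anderson Pool.Agent.Loc Pool.Agent.Mob Pool.Agent.Helper54.Bal

theorem arctan_ge {y : ℝ} (hy : 0 < y) : Real.pi / 2 - 1 / y ≤ Real.arctan y := by
  have h1 : Real.arctan (y⁻¹) = Real.pi / 2 - Real.arctan y := Real.arctan_inv_of_pos hy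
  have h2 : Real.arctan (y⁻¹) ≤ y⁻¹ := by
    have h3 : 0 ≤ y⁻¹ := (inv_pos.2 hy).le
    have h4 := Real.arctan_nonneg.2 h3
    have h5 : Real.arctan (y⁻¹) ≤ Real.tan (Real.arctan (y⁻¹)) :=
      Real.le_tan h4 (Real.arctan_lt_pi_div_two _)
    rwa [Real.tan_arctan] at h5
  rw [one_div]
  linarith

theorem deriv_at (η t E : ℝ) (hη : 0 < η) :
    HasDerivAt (fun E : ℝ => Real.arctan ((E - t) / η) / Real.pi)
      (η / Real.pi / ((E - t) ^ 2 + η ^ 2)) E := by
  have h1 : HasDerivAt (fun E : ℝ => (E - t) / η) (1 / η) E :=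
    ((hasDerivAt_id E).sub_const t).div_const η
  have h2 := (h1.arctan).div_const Real.pi
  refine h2.congr_deriv ?_
  have h3 : (0 : ℝ) < (E - t) ^ 2 + η ^ 2 := by positivity
  have h4 := Real.pi_pos
  have h5 : (0 : ℝ) < 1 + ((E - t) / η) ^ 2 := by positivity
  field_simp
  ring

theorem integral_eq (a r η t : ℝ) (hr : 0 ≤ r) (hη : 0 < η) :
    ∫ E in Set.Icc (a - r) (a + r), η / Real.pi / ((E - t) ^ 2 + η ^ 2) =
      (Real.arctan ((a + r - t) / η) + Real.arctan ((t - (a - r)) / η)) / Real.pi := by
  have hab : a - r ≤ a + r := by linarith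
  rw [integral_Icc_eq_integral_Ioc, ← intervalIntegral.integral_of_le hab,
    intervalIntegral.integral_eq_sub_of_hasDerivAt (f := fun E : ℝ =>
      Real.arctan ((E - t) / η) / Real.pi) (fun E _ => deriv_at η t E hη)]
  · have h1 : (t - (a - r)) / η = -((a - r - t) / η) := by ring
    rw [h1, Real.arctan_neg]
    ring
  · apply Continuous.intervalIntegrable
    refine Continuous.div continuous_const (by fun_prop) fun E => ?_
    have : (0 : ℝ) < (E - t) ^ 2 + η ^ 2 := by positivity
    exact this.ne'

theorem pti : PtiStmt := by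
  intro a r η t hr hη hη1
  rw [integral_eq a r η t hr hη]
  set s := |t - a| with hs
  have hs0 : 0 ≤ s := abs_nonneg _
  have hs2 : (t - a) ^ 2 = s ^ 2 := (sq_abs _).symm
  have hq : 0 < √η := Real.sqrt_pos.2 hη
  have hqq : √η * √η = η := Real.mul_self_sqrt hη.le
  have hpi := Real.pi_pos
  by_cases hc : r - √η ≤ s
  · have hI : 0 ≤ (Real.arctan ((a + r - t) / η) + Real.arctan ((t - (a - r)) / η)) /
        Real.pi := by
      rw [← integral_eq a r η t hr hη]
      apply integral_nonneg
      intro E
      have : (0 : ℝ) < (E - t) ^ 2 + η ^ 2 := by positivity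
      positivity
    have h1 : 0 ≤ r ^ 2 * ((Real.arctan ((a + r - t) / η) + Real.arctan ((t - (a - r)) / η)) /
        Real.pi) := mul_nonneg (sq_nonneg r) hI
    have h2 : r ^ 2 ≤ s ^ 2 + 3 * r * √η := by
      by_cases hc2 : r ≤ √η
      · nlinarith [mul_le_mul_of_nonneg_left hc2 hr, mul_nonneg hr hq.le, sq_nonneg s]
      · push Not at hc2
        have h3 : 0 ≤ r - √η := by linarith
        have h4 : (r - √η) ^ 2 ≤ s ^ 2 := by
          apply pow_le_pow_left₀ h3 hc
        nlinarith [mul_nonneg hr hq.le]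
    have h3 : 0 ≤ r ^ 2 * √η := by positivity
    rw [hs2]
    nlinarith
  · push Not at hc
    have hy1 : √η ≤ a + r - t := by
      have := le_abs_self (t - a)
      rw [← hs] at this
      linarith
    have hy2 : √η ≤ t - (a - r) := by
      have := neg_abs_le (t - a)
      rw [← hs] at this
      linarith
    have key : ∀ y : ℝ, √η ≤ y → Real.pi / 2 - √η ≤ Real.arctan (y / η) := by
      intro y hy
      have hy0 : 0 < y := lt_of_lt_of_le hq hy
      have h1 := arctan_ge (div_pos hy0 hη)
      have h2 : 1 / (y / η) ≤ √η := by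
        rw [one_div_div, div_le_iff₀ hy0]
        have h3 := mul_le_mul_of_nonneg_left hy hq.le
        rwa [hqq] at h3
      linarith
    have k1 := key _ hy1
    have k2 := key _ hy2
    have hI : 1 - √η ≤ (Real.arctan ((a + r - t) / η) + Real.arctan ((t - (a - r)) / η)) /
        Real.pi := by
      rw [le_div_iff₀ hpi]
      have h3 : (2 : ℝ) < Real.pi := by
        have := Real.pi_gt_three
        linarith
      nlinarith
    have h1 := mul_le_mul_of_nonneg_left hI (sq_nonneg r)
    have h2 : 0 ≤ 3 * r * √η := by positivity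
    nlinarith [sq_nonneg (t - a)]

end Pool.Agent.LE.CH.H60
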